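import Mathlib
import Pool.Agent.H21.UE.Defs

/-!
# abc for almost all powerful parts (MP_7ecdd4_nt, n = 3). Definitions and targets.

Every `T_XXX : Prop` is to be proved as a theorem `XXX` in its own file, in the namespace
`Pool.Agent.H38.RB`, other targets being hypotheses.
-/

set_option autoImplicit false

open MvPolynomial Pool.Agent.H21.UE

namespace Pool.Agent.H38.RB

/-! ## triples -/

/-- admissible triples -/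
def Adm (x : Fin 3 → ℤ) : Prop :=
  (∀ i, x i ≠ 0) ∧ (∀ i j, i ≠ j → IsCoprime (x i) (x j)) ∧ x 0 + x 1 + x 2 = 0

/-- the largest entry in absolute value -/
def ht (x : Fin 3 → ℤ) : ℕ := max (x 0).natAbs (max (x 1).natAbs (x 2).natAbs)

/-- the absolute value of the product of the entries -/
def pr (x : Fin 3 → ℤ) : ℕ := (x 0 * x 1 * x 2).natAbs

/-- the part of `m` composed of the primes in `T` -/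
def tp (T : Finset ℕ) (m : ℕ) : ℕ := ∏ p ∈ T, p ^ m.factorization p

/-- the admissible triples for which the part of the product prime to `T` is at most `H ^ κ` -/
def Sol (κ : ℝ) (T : Finset ℕ) : Set (Fin 3 → ℤ) :=
  {x | Adm x ∧ (pr x : ℝ) ≤ (ht x : ℝ) ^ κ * (tp T (pr x) : ℝ)}

/-- the data of a cell: the positions of the primes, of the place at infinity, and the weights -/
structure CD where
  /-- position of the prime `p` -/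
  σ : ℕ → Fin 3
  /-- position of the place at infinity -/
  τ : Fin 3
  /-- weight of the prime `p` -/
  W : ℕ → ℝ
  /-- weight of the place at infinity -/
  w : ℝ

/-- the weights are non-negative and their sum is at least `2 + δ` -/
def CD.Good (c : CD) (T : Finset ℕ) (δ : ℝ) : Prop :=
  (∀ p ∈ T, 0 ≤ c.W p) ∧ 0 ≤ c.w ∧ c.w ≤ 1 ∧ 2 + δ ≤ ∑ p ∈ T, c.W p + c.w

/-- the triples of the cell -/
def CD.cell (c : CD) (T : Finset ℕ) : Set (Fin 3 → ℤ) :=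
  {x | Adm x ∧
    (∀ p ∈ T, c.W p * Real.log (ht x) ≤
      ((x (c.σ p)).natAbs.factorization p : ℝ) * Real.log p) ∧
    |(x c.τ : ℝ)| ≤ (ht x : ℝ) ^ (1 - c.w)}

/-- CELL: few cells contain all solutions of large height. -/
def T_CELL : Prop := ∀ κ : ℝ, 0 ≤ κ → κ < 1 → ∃ C H₁ : ℝ, 1 ≤ C ∧
  ∀ T : Finset ℕ, (∀ p ∈ T, p.Prime) → ∃ 𝒞 : Finset CD,
    (𝒞.card : ℝ) ≤ C ^ (T.card + 1) ∧ (∀ c ∈ 𝒞, c.Good T ((1 - κ) / 2)) ∧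
    ∀ x ∈ Sol κ T, H₁ ≤ (ht x : ℝ) → ∃ c ∈ 𝒞, x ∈ c.cell T

/-- GAP: the gap principle. -/
def T_GAP : Prop := ∀ (T : Finset ℕ) (δ : ℝ) (c : CD) (x y : Fin 3 → ℤ),
  (∀ p ∈ T, p.Prime) → 0 < δ → c.Good T δ → x ∈ c.cell T → y ∈ c.cell T → y ≠ x → y ≠ -x →
  ht x ≤ ht y → (ht x : ℝ) ^ (1 + δ) ≤ 2 * (ht y : ℝ)

/-! ## polynomials -/

/-- the two matrices of the auxiliary polynomial; the inverse of the second one is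
`!![1, 1; 0, 1]` -/
def A : Fin 2 → Matrix (Fin 2) (Fin 2) ℤ := ![1, !![1, -1; 0, 1]]

/-- `P` at `X(h,0) e₀ + X(h,1) x_h` -/
noncomputable def tw {m : ℕ} (x : Fin m → Fin 3 → ℤ) (P : MvPolynomial (Fin m × Fin 2) ℤ) :
    MvPolynomial (Fin m × Fin 2) ℤ :=
  aeval (fun q : Fin m × Fin 2 =>
    if q.2 = 0 then X (q.1, 0) + C (x q.1 0) * X (q.1, 1) else C (x q.1 1) * X (q.1, 1)) P

/-- `x_0` for `v = 0`, `x_0 + x_1 = -x_2` for `v = 1` -/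
def sg (v : Fin 2) (x : Fin 3 → ℤ) : ℤ := if v = 0 then x 0 else x 0 + x 1

/-- NZ: some coefficient of small index does not vanish (Roth's lemma). -/
def T_NZ : Prop := ∀ m : ℕ, 1 ≤ m → ∀ θ : ℝ, 0 < θ → ∀ D : ℝ, 1 ≤ D →
  ∃ Ω K : ℝ, 1 ≤ Ω ∧ 1 ≤ K ∧
  ∀ (x : Fin m → Fin 3 → ℤ) (r : Fin m → ℕ) (R : ℝ) (P : MvPolynomial (Fin m × Fin 2) ℤ),
  (∀ h, Adm (x h)) → (∀ h, K ≤ Real.log (ht (x h))) →
  (∀ h h', h < h' → Ω * Real.log (ht (x h')) ≤ Real.log (ht (x h))) →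
  (∀ h, 1 ≤ r h) → (∀ h, R ≤ r h * Real.log (ht (x h)) ∧ r h * Real.log (ht (x h)) ≤ 2 * R) →
  P ≠ 0 → (∀ J ∈ P.support, ∀ h, ∑ i, J (h, i) = r h) → l1 P ≤ D ^ (∑ h, r h) →
  ∃ k : Fin m × Fin 2 →₀ ℕ, ∑ h, (k (h, 0) : ℝ) / r h < θ ∧ (tw x P).coeff k ≠ 0

/-- COEF: the coefficients of `tw x P`, in the coordinates `v`. -/
def T_COEF : Prop := ∀ (m : ℕ) (x : Fin m → Fin 3 → ℤ) (r : Fin m → ℕ)
  (P : MvPolynomial (Fin m × Fin 2) ℤ), (∀ J ∈ P.support, ∀ h, ∑ i, J (h, i) = r h) →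
  ∀ k : Fin m × Fin 2 →₀ ℕ, (tw x P).coeff k ≠ 0 →
    (∀ h, ∑ i, k (h, i) = r h) ∧ ∀ v : Fin 2,
    (tw x P).coeff k = ∑ J ∈ (subst (A v) P).support, (subst (A v) P).coeff J *
      ∏ h, (((J (h, 0)).choose (k (h, 0)) : ℤ) * sg v (x h) ^ (J (h, 0) - k (h, 0)) *
        x h 1 ^ J (h, 1))

/-- LOW: lower bound for the coefficient from the primes in `T`. -/
def T_LOW : Prop := ∀ (T : Finset ℕ) (c : CD) (m : ℕ) (x : Fin m → Fin 3 → ℤ) (r : Fin m → ℕ)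
  (P : MvPolynomial (Fin m × Fin 2) ℤ) (k : Fin m × Fin 2 →₀ ℕ) (ε R : ℝ),
  (∀ p ∈ T, p.Prime) → (∀ p ∈ T, 0 ≤ c.W p) → (∀ h, x h ∈ c.cell T) → 0 < R → 0 < ε →
  (∀ h, 1 ≤ r h) → (∀ h, R ≤ r h * Real.log (ht (x h))) →
  (∀ J ∈ P.support, ∀ h, ∑ i, J (h, i) = r h) →
  (∀ v, ∀ J ∈ (subst (A v) P).support, ∀ i : Fin 2,
    |∑ h, (J (h, i) : ℝ) / r h - m / 2| ≤ ε * m) →
  (tw x P).coeff k ≠ 0 → ∑ h, (k (h, 0) : ℝ) / r h ≤ ε * m →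
  (∑ p ∈ T, c.W p) * R * (m / 2 - 2 * ε * m) ≤ Real.log |(((tw x P).coeff k : ℤ) : ℝ)|

/-- UPP: upper bound for the coefficient. -/
def T_UPP : Prop := ∀ (T : Finset ℕ) (c : CD) (m : ℕ) (x : Fin m → Fin 3 → ℤ) (r : Fin m → ℕ)
  (P : MvPolynomial (Fin m × Fin 2) ℤ) (k : Fin m × Fin 2 →₀ ℕ) (ε R D : ℝ),
  0 ≤ c.w → c.w ≤ 1 → (∀ h, x h ∈ c.cell T) → 0 < R → 0 < ε → 1 ≤ D →
  (∀ h, 1 ≤ r h) → (∀ h, R ≤ r h * Real.log (ht (x h))) →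
  (∀ J ∈ P.support, ∀ h, ∑ i, J (h, i) = r h) → l1 P ≤ D ^ (∑ h, r h) →
  (∀ v, ∀ J ∈ (subst (A v) P).support, ∀ i : Fin 2,
    |∑ h, (J (h, i) : ℝ) / r h - m / 2| ≤ ε * m) →
  (tw x P).coeff k ≠ 0 → ∑ h, (k (h, 0) : ℝ) / r h ≤ ε * m →
  Real.log |(((tw x P).coeff k : ℤ) : ℝ)| ≤ (∑ h, (r h : ℝ)) * Real.log (4 * D) +
    ∑ h, (r h : ℝ) * Real.log (ht (x h)) - c.w * R * (m / 2 - 2 * ε * m)

/-- MAIN: a cell has no `m` solutions of large and rapidly growing heights. -/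
def T_MAIN : Prop := ∀ δ : ℝ, 0 < δ → δ ≤ 1 → ∃ (m : ℕ) (Ω K : ℝ), 1 ≤ m ∧ 1 ≤ Ω ∧ 1 ≤ K ∧
  ∀ (T : Finset ℕ) (c : CD), (∀ p ∈ T, p.Prime) → c.Good T δ →
  ∀ x : Fin m → Fin 3 → ℤ, (∀ h, x h ∈ c.cell T) → (∀ h, K ≤ Real.log (ht (x h))) →
  ¬ ∀ h h', h < h' → Ω * Real.log (ht (x h')) ≤ Real.log (ht (x h))

/-- QR: the quantitative theorem of Ridout for the points `0, 1, ∞`. -/
def T_QR : Prop := ∀ κ : ℝ, κ < 1 → ∃ C : ℝ, 1 ≤ C ∧ ∀ T : Finset ℕ, (∀ p ∈ T, p.Prime) →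
  (Sol κ T).Finite ∧ ((Sol κ T).ncard : ℝ) ≤ C ^ (T.card + 1)

/-! ## deletion of primes -/

/-- DEL: one of many primes has small weight. -/
def T_DEL : Prop := ∀ (κ : ℝ) (K : ℕ) (T S : Finset ℕ) (x : Fin 3 → ℤ), 0 ≤ κ → κ < 1 →
  6 ≤ (1 - κ) * K → (∀ p ∈ T, p.Prime) → S ⊆ T → K ≤ S.card → x ∈ Sol κ T →
  ∃ p ∈ S, x ∈ Sol ((1 + κ) / 2) (T.erase p)

/-- GRD: greedy choice. -/
def T_GRD : Prop := ∀ (T : Finset ℕ) (u l : ℕ → ℝ) (U L τ : ℝ), (∀ p ∈ T, 0 ≤ u p) →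
  (∀ p ∈ T, 0 < l p) → (∀ p ∈ T, l p ≤ L) → 0 ≤ L → ∑ p ∈ T, u p ≤ U → 0 < U → 0 ≤ τ →
  τ ≤ U →
  ∃ D ⊆ T, ∑ p ∈ D, u p ≤ τ ∧ τ / U * ∑ p ∈ T, l p - L ≤ ∑ p ∈ D, l p

/-- SMO: deletion of many primes. -/
def T_SMO : Prop := ∀ (κ τ : ℝ) (y : ℝ) (T : Finset ℕ) (x : Fin 3 → ℤ), 0 ≤ κ → 0 < τ →
  τ ≤ 1 → 2 ≤ y → (∀ p ∈ T, p.Prime) → (∀ p ∈ T, (p : ℝ) ≤ y) → x ∈ Sol κ T →
  ∃ D ⊆ T, x ∈ Sol (κ + τ) (T \ D) ∧ (((∏ p ∈ T, p : ℕ) : ℝ)) ^ (τ / 3) ≤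
    y * ((∏ p ∈ D, p : ℕ) : ℝ)

/-! ## counting -/

/-- squarefree numbers up to `X` -/
noncomputable def sq (X : ℝ) : Finset ℕ := (Finset.Icc 1 ⌊X⌋₊).filter Squarefree

/-- MER: upper bound in Mertens' theorem. -/
def T_MER : Prop := ∃ c : ℝ, 0 ≤ c ∧ ∀ X : ℝ, 2 ≤ X →
  ∑ p ∈ (Finset.Icc 1 ⌊X⌋₊).filter Nat.Prime, 1 / (p : ℝ) ≤ Real.log (Real.log X) + c

/-- HT: upper bound for sums of non-negative multiplicative functions. -/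
def T_HT : Prop := ∀ A : ℝ, 0 ≤ A → ∃ C : ℝ, 0 < C ∧ ∀ f : ℕ → ℝ, (∀ p, 0 ≤ f p ∧ f p ≤ A) →
  ∀ X : ℝ, 2 ≤ X → ∑ t ∈ sq X, ∏ p ∈ t.primeFactors, f p ≤
    C * X / Real.log X * Real.exp (∑ p ∈ (Finset.Icc 1 ⌊X⌋₊).filter Nat.Prime, f p / p)

/-- COM: the mean of `A ^ ω(t)`. -/
def T_COM : Prop := ∀ A : ℝ, 1 ≤ A → ∃ C : ℝ, 0 < C ∧ ∀ X : ℝ, 1 ≤ X →
  ∑ t ∈ sq X, A ^ t.primeFactors.card ≤ C * X * (Real.log X + 2) ^ C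

/-- COME: the same with `X ^ ε`. -/
def T_COME : Prop := ∀ A ε : ℝ, 1 ≤ A → 0 < ε → ∃ C : ℝ, 0 < C ∧ ∀ X : ℝ, 0 < X →
  ∑ t ∈ sq X, A ^ t.primeFactors.card ≤ C * X ^ (1 + ε)

/-- FEW: numbers with few prime factors above `(log X) ^ B`. -/
def T_FEW : Prop := ∀ (A B : ℝ) (K : ℕ), 1 ≤ A → 1 ≤ B → ∃ C : ℝ, 0 < C ∧ ∀ X : ℝ, 16 ≤ X →
  ∑ t ∈ (sq X).filter (fun t : ℕ =>
      (t.primeFactors.filter fun p : ℕ => (Real.log X) ^ B ≤ (p : ℝ)).card < K),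
    A ^ t.primeFactors.card ≤ C * X * Real.log (Real.log X) ^ C / Real.log X

/-- CNTA: the first count. -/
def T_CNTA : Prop := ∀ κ : ℝ, κ < 1 → ∃ C : ℝ, 0 < C ∧ ∀ X : ℝ, 16 ≤ X →
  {x | ∃ t : ℕ, Squarefree t ∧ (t : ℝ) ≤ X ∧ x ∈ Sol κ t.primeFactors}.Finite ∧
  ({x | ∃ t : ℕ, Squarefree t ∧ (t : ℝ) ≤ X ∧ x ∈ Sol κ t.primeFactors}.ncard : ℝ) ≤
    C * X * Real.log (Real.log X) ^ C / Real.log X

/-- CNTB: the second count. -/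
def T_CNTB : Prop := ∀ κ ε : ℝ, 0 ≤ κ → κ < 1 → 0 < ε → ∃ C : ℝ, 0 < C ∧ ∀ X y : ℝ, 1 ≤ X →
  2 ≤ y →
  {x | ∃ t : ℕ, Squarefree t ∧ (t : ℝ) ≤ X ∧ (∀ p ∈ t.primeFactors, (p : ℝ) ≤ y) ∧
      x ∈ Sol κ t.primeFactors}.Finite ∧
  ({x | ∃ t : ℕ, Squarefree t ∧ (t : ℝ) ≤ X ∧ (∀ p ∈ t.primeFactors, (p : ℝ) ≤ y) ∧
      x ∈ Sol κ t.primeFactors}.ncard : ℝ) ≤ C * y * X ^ ((2 + κ) / 3 + ε)

end Pool.Agent.H38.RB
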