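import Mathlib
import Pool.Agent.H38.AE.Statement

/-!
# The abc inequality for almost all powerful parts: definitions of the statement
-/

set_option autoImplicit false

namespace Pool.Agent.H38.RB

open Pool.Agent.H38.AE.Statement

/-- The product of the primes `p` such that `p ^ k` divides the non-zero integer `m`. -/
def core (k : ℕ) (m : ℤ) : ℕ := ∏ p ∈ m.natAbs.primeFactors.filter (fun p => p ^ k ∣ m.natAbs), p

/-- The admissible triples, of any height, some entry of which is larger than the `M`-th power of
the radical of the product. -/
def Violating (M : ℝ) : Set (Fin 3 → ℤ) :=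
  {x | Admissible x ∧ ∃ i, (radical (∏ i, x i) : ℝ) ^ M < |(x i : ℝ)|}

end Pool.Agent.H38.RB
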