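import Pool.Agent.H38.RB.Targets
import Pool.Agent.H38.AE.Statement
import Pool.Agent.H38.RB.Stmt

/-! # COR: from violating triples to `Sol` -/

set_option autoImplicit false

namespace Pool.Agent.H38.RB

open Pool.Agent.H38.AE.Statement

lemma adm_of {x : Fin 3 → ℤ} (hx : Admissible x) : Adm x := by
  obtain ⟨h1, h2, h3⟩ := hx
  rw [Fin.sum_univ_three] at h3
  exact ⟨h1, h2, h3⟩

lemma le_ht (x : Fin 3 → ℤ) (i : Fin 3) : |(x i : ℝ)| ≤ (ht x : ℝ) := by
  have h : (x i).natAbs ≤ ht x := by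
    unfold ht
    fin_cases i
    · exact le_max_left _ _
    · exact (le_max_left _ _).trans (le_max_right _ _)
    · exact (le_max_right _ _).trans (le_max_right _ _)
  rw [← Int.cast_abs, Int.abs_eq_natAbs, Int.cast_natCast]
  exact_mod_cast h

lemma ht_eq (x : Fin 3 → ℤ) : ∃ i, (ht x : ℝ) = |(x i : ℝ)| := by
  have h : ∃ i, ht x = (x i).natAbs := by
    unfold ht
    rcases max_choice (x 0).natAbs (max (x 1).natAbs (x 2).natAbs) with h | h
    · exact ⟨0, h⟩
    · rcases max_choice (x 1).natAbs (x 2).natAbs with h' | h'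
      · exact ⟨1, h.trans h'⟩
      · exact ⟨2, h.trans h'⟩
  obtain ⟨i, hi⟩ := h
  refine ⟨i, ?_⟩
  rw [← Int.cast_abs, Int.abs_eq_natAbs, Int.cast_natCast, hi]

lemma one_le_ht {x : Fin 3 → ℤ} (hx : Adm x) : (1 : ℝ) ≤ (ht x : ℝ) := by
  have h1 : 1 ≤ (x 0).natAbs := Int.natAbs_pos.2 (hx.1 0)
  have h2 : 1 ≤ ht x := h1.trans (le_max_left _ _)
  exact_mod_cast h2

lemma pr_eq (x : Fin 3 → ℤ) : (∏ i, x i).natAbs = pr x := by
  rw [Fin.prod_univ_three]
  rfl

lemma prime_of_filter {k : ℕ} {m : ℤ} {p : ℕ}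
    (hp : p ∈ m.natAbs.primeFactors.filter (fun p => p ^ k ∣ m.natAbs)) : p.Prime :=
  Nat.prime_of_mem_primeFactors (Finset.mem_filter.1 hp).1

lemma core_factors (k : ℕ) (m : ℤ) :
    (core k m).primeFactors = m.natAbs.primeFactors.filter (fun p => p ^ k ∣ m.natAbs) := by
  unfold core
  exact Nat.primeFactors_prod fun p hp => prime_of_filter hp

lemma core_sqf (k : ℕ) (m : ℤ) : Squarefree (core k m) := by
  unfold core
  refine Finset.squarefree_prod_of_pairwise_isCoprime ?_ ?_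
  · intro p hp q hq hpq
    exact Nat.coprime_iff_isRelPrime.1
      ((Nat.coprime_primes (prime_of_filter hp) (prime_of_filter hq)).2 hpq)
  · intro p hp
    exact (prime_of_filter hp).squarefree

lemma part_le (k : ℕ) (hk : 1 ≤ k) (m : ℕ) (hm : m ≠ 0) :
    m ≤ (∏ p ∈ m.primeFactors, p) ^ (k - 1) *
      tp (m.primeFactors.filter (fun p => p ^ k ∣ m)) m := by
  have h1 : m = ∏ p ∈ m.primeFactors, p ^ m.factorization p := by
    conv_lhs => rw [← Nat.prod_factorization_pow_eq_self hm]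
    rfl
  have h2 : ∏ p ∈ m.primeFactors, p ^ m.factorization p =
      (∏ p ∈ m.primeFactors.filter (fun p => ¬ p ^ k ∣ m), p ^ m.factorization p) *
        tp (m.primeFactors.filter (fun p => p ^ k ∣ m)) m := by
    unfold tp
    rw [mul_comm]
    exact (Finset.prod_filter_mul_prod_filter_not _ _ _).symm
  have h3 : ∏ p ∈ m.primeFactors.filter (fun p => ¬ p ^ k ∣ m), p ^ m.factorization p ≤
      (∏ p ∈ m.primeFactors, p) ^ (k - 1) := by
    calc ∏ p ∈ m.primeFactors.filter (fun p => ¬ p ^ k ∣ m), p ^ m.factorization p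
        ≤ ∏ p ∈ m.primeFactors.filter (fun p => ¬ p ^ k ∣ m), p ^ (k - 1) := by
          refine Finset.prod_le_prod' fun p hp => ?_
          rw [Finset.mem_filter] at hp
          have hpp := Nat.prime_of_mem_primeFactors hp.1
          refine Nat.pow_le_pow_right hpp.pos ?_
          rw [hpp.pow_dvd_iff_le_factorization hm] at hp
          omega
      _ ≤ ∏ p ∈ m.primeFactors, p ^ (k - 1) := by
          refine Finset.prod_le_prod_of_subset_of_one_le' (Finset.filter_subset _ _) ?_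
          intro p hp _
          exact Nat.one_le_pow _ _ (Nat.prime_of_mem_primeFactors hp).pos
      _ = _ := Finset.prod_pow _ _ _
  calc m = _ := h1
    _ = _ := h2
    _ ≤ _ := Nat.mul_le_mul_right _ h3

/-- A violating triple is a solution for the set of primes dividing its core. -/
theorem mem_sol (k : ℕ) (hk : 1 ≤ k) (M : ℝ) (hM : k = 1 ∨ (k : ℝ) - 1 < M) (x : Fin 3 → ℤ)
    (hx : x ∈ Violating M) :
    x ∈ Sol (((k : ℝ) - 1) / M) (core k (∏ i, x i)).primeFactors := by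
  obtain ⟨hadm, i, hi⟩ := hx
  have hA := adm_of hadm
  refine ⟨hA, ?_⟩
  rw [core_factors, pr_eq]
  have hpr : pr x ≠ 0 := by
    unfold pr
    exact Int.natAbs_ne_zero.2 (mul_ne_zero (mul_ne_zero (hA.1 0) (hA.1 1)) (hA.1 2))
  have h1 := part_le k hk (pr x) hpr
  have h2 : (pr x : ℝ) ≤ ((∏ p ∈ (pr x).primeFactors, p : ℕ) : ℝ) ^ (k - 1) *
      (tp ((pr x).primeFactors.filter (fun p => p ^ k ∣ pr x)) (pr x) : ℝ) := by
    exact_mod_cast h1
  refine h2.trans (mul_le_mul_of_nonneg_right ?_ (Nat.cast_nonneg _))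
  rcases hM with rfl | hM
  · simp
  · rcases Nat.lt_or_ge 1 k with hk2 | hk1
    · have hk2' : (1 : ℝ) < k := by exact_mod_cast hk2
      have hM0 : 0 < M := by linarith
      set r : ℕ := ∏ p ∈ (pr x).primeFactors, p with hr
      have hrad : radical (∏ i, x i) = r := by
        unfold radical
        rw [pr_eq]
      rw [hrad] at hi
      have hr0 : (0 : ℝ) ≤ (r : ℝ) := Nat.cast_nonneg _
      have h3 : (r : ℝ) ^ M ≤ (ht x : ℝ) := hi.le.trans (le_ht x i)
      have h4 : (r : ℝ) ^ (k - 1) = ((r : ℝ) ^ M) ^ (((k : ℝ) - 1) / M) := by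
        rw [← Real.rpow_mul hr0, mul_div_cancel₀ _ hM0.ne', ← Real.rpow_natCast]
        congr 1
        rw [Nat.cast_sub hk]
        norm_num
      rw [h4]
      exact Real.rpow_le_rpow (Real.rpow_nonneg hr0 _) h3 (div_nonneg (by linarith) hM0.le)
    · have hk' : k = 1 := le_antisymm hk1 hk
      subst hk'
      simp

lemma kap (k : ℕ) (hk : 1 ≤ k) (M : ℝ) (hM0 : 0 ≤ M) (hM : k = 1 ∨ (k : ℝ) - 1 < M) :
    0 ≤ ((k : ℝ) - 1) / M ∧ ((k : ℝ) - 1) / M < 1 := by
  have hk' : (1 : ℝ) ≤ k := by exact_mod_cast hk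
  refine ⟨div_nonneg (by linarith) hM0, ?_⟩
  rcases hM with rfl | hM
  · simp
  · have : 0 < M := by linarith
    rw [div_lt_one this]
    exact hM

/-- The admissible triples, of any height, for which there are a squarefree `t ≤ X` and a
factorisation `|x₀ x₁ x₂| = d * e` such that every prime factor of `d` divides `t` and
`e ≤ (max |x i|) ^ κ`. -/
def Supported (κ X : ℝ) : Set (Fin 3 → ℤ) :=
  {x | Admissible x ∧ ∃ t d e : ℕ, Squarefree t ∧ (t : ℝ) ≤ X ∧ (∀ p : ℕ, p.Prime → p ∣ d → p ∣ t) ∧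
    (∏ i, x i).natAbs = d * e ∧ ∃ i, (e : ℝ) ≤ |(x i : ℝ)| ^ κ}

lemma le_tp (T : Finset ℕ) (m d : ℕ) (hm : m ≠ 0) (hd : d ∣ m)
    (hT : ∀ p : ℕ, p.Prime → p ∣ d → p ∈ T) (hT1 : ∀ p ∈ T, p.Prime) : d ≤ tp T m := by
  have hd0 : d ≠ 0 := fun h => hm (by rw [h] at hd; exact zero_dvd_iff.1 hd)
  have h1 : d = ∏ p ∈ d.primeFactors, p ^ d.factorization p := by
    conv_lhs => rw [← Nat.prod_factorization_pow_eq_self hd0]
    rfl
  calc d = _ := h1
    _ ≤ ∏ p ∈ d.primeFactors, p ^ m.factorization p := by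
        refine Finset.prod_le_prod' fun p hp => ?_
        exact Nat.pow_le_pow_right (Nat.prime_of_mem_primeFactors hp).pos
          ((Nat.factorization_le_iff_dvd hd0 hm).2 hd p)
    _ ≤ _ := by
        unfold tp
        refine Finset.prod_le_prod_of_subset_of_one_le' ?_ ?_
        · intro p hp
          exact hT p (Nat.prime_of_mem_primeFactors hp) (Nat.dvd_of_mem_primeFactors hp)
        · intro p hp _
          exact Nat.one_le_pow _ _ (hT1 p hp).pos

theorem supported_sub (κ X : ℝ) (hκ : 0 ≤ κ) :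
    Supported κ X ⊆
      {x | ∃ t : ℕ, Squarefree t ∧ (t : ℝ) ≤ X ∧ x ∈ Sol κ t.primeFactors} := by
  rintro x ⟨hadm, t, d, e, hts, htX, hd, hde, i, hi⟩
  have hA := adm_of hadm
  refine ⟨t, hts, htX, hA, ?_⟩
  rw [pr_eq] at hde
  have hpr : pr x ≠ 0 := by
    unfold pr
    exact Int.natAbs_ne_zero.2 (mul_ne_zero (mul_ne_zero (hA.1 0) (hA.1 1)) (hA.1 2))
  have h1 : d ≤ tp t.primeFactors (pr x) := by
    refine le_tp _ _ _ hpr ⟨e, hde⟩ ?_ fun p hp => Nat.prime_of_mem_primeFactors hp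
    intro p hp hpd
    exact Nat.mem_primeFactors.2 ⟨hp, hd p hp hpd, hts.ne_zero⟩
  have h2 : (e : ℝ) ≤ (ht x : ℝ) ^ κ :=
    hi.trans (Real.rpow_le_rpow (abs_nonneg _) (le_ht x i) hκ)
  calc (pr x : ℝ) = (e : ℝ) * d := by
        rw [hde]
        push_cast
        ring
    _ ≤ (ht x : ℝ) ^ κ * (tp t.primeFactors (pr x) : ℝ) := by
        refine mul_le_mul h2 (by exact_mod_cast h1) (Nat.cast_nonneg _)
          (Real.rpow_nonneg (Nat.cast_nonneg _) _)

end Pool.Agent.H38.RB
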