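import Pool.Agent.H38.RB.Targets
import Pool.Agent.H27.UE.AuxPoly

/-! # COEF: the coefficients of `tw x P` -/

set_option autoImplicit false

open MvPolynomial Pool.Agent.H21.UE

namespace Pool.Agent.H38.RB

/-- the new coordinates -/
noncomputable def cy {m : ℕ} (x : Fin m → Fin 3 → ℤ) (v : Fin 2) (q : Fin m × Fin 2) :
    MvPolynomial (Fin m × Fin 2) ℤ :=
  if q.2 = 0 then X (q.1, 0) + C (sg v (x q.1)) * X (q.1, 1) else C (x q.1 1) * X (q.1, 1)

lemma tw_eq {m : ℕ} (x : Fin m → Fin 3 → ℤ) (v : Fin 2) (P : MvPolynomial (Fin m × Fin 2) ℤ) :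
    tw x P = aeval (cy x v) (subst (A v) P) := by
  unfold tw subst
  have h : (aeval (cy x v) : MvPolynomial (Fin m × Fin 2) ℤ →ₐ[ℤ] _).comp
      (aeval (fun q : Fin m × Fin 2 => ∑ j, C (A v q.2 j) * X (q.1, j))) =
      aeval (fun q : Fin m × Fin 2 =>
        if q.2 = 0 then X (q.1, 0) + C (x q.1 0) * X (q.1, 1) else C (x q.1 1) * X (q.1, 1)) := by
    rw [comp_aeval]
    congr 1
    funext q
    obtain ⟨h, i⟩ := q
    simp only [Fin.sum_univ_two, map_add, map_mul, aeval_X, cy]
    have e1 : ∀ z : ℤ, (aeval (cy x v) : MvPolynomial (Fin m × Fin 2) ℤ →ₐ[ℤ] _) (C z) =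
        (C z : MvPolynomial (Fin m × Fin 2) ℤ) := fun z => by
      rw [aeval_C]
      rfl
    have e2 : ∀ z : ℤ, (aeval (fun q : Fin m × Fin 2 => cy x v q) :
        MvPolynomial (Fin m × Fin 2) ℤ →ₐ[ℤ] _) (C z) =
        (C z : MvPolynomial (Fin m × Fin 2) ℤ) := fun z => by
      rw [aeval_C]
      rfl
    fin_cases v <;> fin_cases i <;> (simp [A, sg]; try ring)
  rw [← h]
  rfl

/-- the product of the coordinates of one block -/
lemma block {m : ℕ} (x : Fin m → Fin 3 → ℤ) (v : Fin 2) (h : Fin m) (a b : ℕ) :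
    cy x v (h, 0) ^ a * cy x v (h, 1) ^ b =
      ∑ i ∈ Finset.range (a + 1), monomial (Finsupp.single (h, 0) i +
        Finsupp.single (h, 1) (a - i + b)) ((a.choose i : ℤ) * sg v (x h) ^ (a - i) *
          x h 1 ^ b) := by
  unfold cy
  simp only [if_true, one_ne_zero, if_false, Fin.isValue]
  rw [add_pow, Finset.sum_mul]
  refine Finset.sum_congr rfl fun i _ => ?_
  rw [mul_pow, mul_pow, ← C_pow, ← C_pow]
  have h1 : (monomial (Finsupp.single (h, (0 : Fin 2)) i + Finsupp.single (h, (1 : Fin 2))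
      (a - i + b))) ((a.choose i : ℤ) * sg v (x h) ^ (a - i) * x h 1 ^ b) =
      C ((a.choose i : ℤ) * sg v (x h) ^ (a - i) * x h 1 ^ b) *
        (X (h, 0) ^ i * X (h, 1) ^ (a - i + b)) := by
    rw [X_pow_eq_monomial, X_pow_eq_monomial, monomial_mul, C_mul_monomial]
    simp
  rw [h1, pow_add, C_mul, C_mul]
  have h2 : (C ((a.choose i : ℤ)) : MvPolynomial (Fin m × Fin 2) ℤ) = (a.choose i : ℕ) := by
    simp
  rw [h2]
  ring

lemma prod_mon {m : ℕ} (s : Finset (Fin m)) (e : Fin m → (Fin m × Fin 2 →₀ ℕ)) (c : Fin m → ℤ) :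
    (∏ h ∈ s, monomial (e h) (c h) : MvPolynomial (Fin m × Fin 2) ℤ) =
      monomial (∑ h ∈ s, e h) (∏ h ∈ s, c h) := by
  classical
  induction s using Finset.induction_on with
  | empty => simp
  | insert a s ha ih =>
    rw [Finset.prod_insert ha, Finset.sum_insert ha, Finset.prod_insert ha, ih, monomial_mul]

lemma exp_apply0 {m : ℕ} (a b : Fin m → ℕ) (h : Fin m) :
    (∑ i, (Finsupp.single (i, (0 : Fin 2)) (a i) + Finsupp.single (i, (1 : Fin 2)) (b i)))
      (h, 0) = a h := by
  classical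
  rw [Finsupp.finsetSum_apply, Finset.sum_eq_single h]
  · simp
  · intro i _ hi
    simp [hi]
  · intro hh
    exact absurd (Finset.mem_univ _) hh

lemma exp_apply1 {m : ℕ} (a b : Fin m → ℕ) (h : Fin m) :
    (∑ i, (Finsupp.single (i, (0 : Fin 2)) (a i) + Finsupp.single (i, (1 : Fin 2)) (b i)))
      (h, 1) = b h := by
  classical
  rw [Finsupp.finsetSum_apply, Finset.sum_eq_single h]
  · simp
  · intro i _ hi
    simp [hi]
  · intro hh
    exact absurd (Finset.mem_univ _) hh

lemma exp_eq_iff {m : ℕ} (a b : Fin m → ℕ) (k : Fin m × Fin 2 →₀ ℕ) :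
    (∑ i, (Finsupp.single (i, (0 : Fin 2)) (a i) + Finsupp.single (i, (1 : Fin 2)) (b i))) = k ↔
      ∀ h, a h = k (h, 0) ∧ b h = k (h, 1) := by
  constructor
  · rintro rfl h
    exact ⟨(exp_apply0 a b h).symm, (exp_apply1 a b h).symm⟩
  · intro hh
    ext ⟨h, i⟩
    fin_cases i
    · exact (exp_apply0 a b h).trans (hh h).1
    · exact (exp_apply1 a b h).trans (hh h).2

/-- coefficient of a product of blocks -/
lemma coeff_blocks {m : ℕ} (x : Fin m → Fin 3 → ℤ) (v : Fin 2) (J k : Fin m × Fin 2 →₀ ℕ) :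
    (∏ q, cy x v q ^ J q).coeff k =
      if (∀ h, k (h, 0) + k (h, 1) = J (h, 0) + J (h, 1)) then
        ∏ h, (((J (h, 0)).choose (k (h, 0)) : ℤ) * sg v (x h) ^ (J (h, 0) - k (h, 0)) *
          x h 1 ^ J (h, 1)) else 0 := by
  classical
  rw [Fintype.prod_prod_type]
  simp only [Fin.prod_univ_two]
  simp_rw [block]
  rw [Finset.prod_univ_sum, coeff_sum]
  simp_rw [prod_mon, coeff_monomial, exp_eq_iff]
  by_cases hk : ∀ h, k (h, 0) + k (h, 1) = J (h, 0) + J (h, 1)
  · rw [if_pos hk]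
    by_cases hle : ∀ h, k (h, 0) ≤ J (h, 0)
    · rw [Finset.sum_eq_single (fun h => k (h, 0))]
      · rw [if_pos]
        intro h
        refine ⟨rfl, ?_⟩
        have h1 := hk h
        have h2 := hle h
        show J (h, 0) - k (h, 0) + J (h, 1) = k (h, 1)
        omega
      · intro p _ hp
        rw [if_neg]
        intro h
        exact hp (funext fun i => (h i).1)
      · intro h
        exfalso
        apply h
        rw [Fintype.mem_piFinset]
        intro i
        rw [Finset.mem_range]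
        exact Nat.lt_succ_of_le (hle i)
    · push Not at hle
      obtain ⟨h, hh⟩ := hle
      rw [Finset.sum_eq_zero, eq_comm]
      · refine Finset.prod_eq_zero (Finset.mem_univ h) ?_
        rw [Nat.choose_eq_zero_of_lt hh]
        simp
      · intro p hp
        rw [if_neg]
        intro h'
        rw [Fintype.mem_piFinset] at hp
        have h1 := Finset.mem_range.1 (hp h)
        have h2 := (h' h).1
        omega
  · rw [if_neg hk]
    refine Finset.sum_eq_zero fun p hp => ?_
    rw [if_neg]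
    intro h'
    apply hk
    intro h
    rw [Fintype.mem_piFinset] at hp
    have h1 := Finset.mem_range.1 (hp h)
    have h2 := h' h
    omega

theorem COEF : T_COEF := by
  intro m x r P hP k hk
  have hQ : ∀ v : Fin 2, ∀ J ∈ (subst (A v) P).support, ∀ h, ∑ i, J (h, i) = r h :=
    fun v => subst_homog (A v) P r hP
  have key : ∀ v : Fin 2, (tw x P).coeff k = ∑ J ∈ (subst (A v) P).support,
      (subst (A v) P).coeff J * (if (∀ h, k (h, 0) + k (h, 1) = J (h, 0) + J (h, 1)) then
        ∏ h, (((J (h, 0)).choose (k (h, 0)) : ℤ) * sg v (x h) ^ (J (h, 0) - k (h, 0)) *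
          x h 1 ^ J (h, 1)) else 0) := by
    intro v
    rw [tw_eq x v P, aeval_def, eval₂_eq', coeff_sum]
    refine Finset.sum_congr rfl fun J _ => ?_
    rw [← coeff_blocks x v J k]
    exact coeff_C_mul _ _ _
  have hhom : ∀ h, k (h, 0) + k (h, 1) = r h := by
    have h0 := key 0
    rw [h0] at hk
    obtain ⟨J, hJ, hJ0⟩ := Finset.exists_ne_zero_of_sum_ne_zero hk
    intro h
    by_contra hne
    apply hJ0
    rw [if_neg, mul_zero]
    intro h'
    have h1 := hQ 0 J hJ h
    rw [Fin.sum_univ_two] at h1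
    exact hne ((h' h).trans h1)
  refine ⟨fun h => by rw [Fin.sum_univ_two]; exact hhom h, fun v => ?_⟩
  rw [key v]
  refine Finset.sum_congr rfl fun J hJ => ?_
  rw [if_pos]
  intro h
  have h1 := hQ v J hJ h
  rw [Fin.sum_univ_two] at h1
  rw [hhom h, h1]

end Pool.Agent.H38.RB
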