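import Pool.Agent.H38.RB.CNTC
import Pool.Agent.H1.RB.HT
import Pool.Agent.H33.RB.GRD
import Pool.Agent.H34.RB.DEL
import Pool.Agent.H38.RB.COEF
import Pool.Agent.H56.RB.LOW
import Pool.Agent.H56.RB.MAIN
import Pool.Agent.H56.RB.MER
import Pool.Agent.H56.RB.NZ
import Pool.Agent.H63.RB.COM
import Pool.Agent.H63.RB.GAP
import Pool.Agent.H63.RB.QR
import Pool.Agent.H63.RB.UPP
import Pool.Agent.H74.RB.CNTA
import Pool.Agent.H81.RB.CNTB
import Pool.Agent.H81.RB.FEW
import Pool.Agent.H86.RB.CELL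
import Pool.Agent.H86.RB.SMO
import Pool.Agent.H80.UE.Roth
import Pool.Agent.H80.UE.Spec
import Pool.Agent.H27.UE.AuxPoly
import Pool.Agent.H51.UE.CNT
import Pool.Agent.H4.UE.HAS
import Pool.Agent.H4.UE.WRO
import Pool.Agent.H34.UE.BAS

/-! # Assembly -/

set_option autoImplicit false

namespace Pool.Agent.H38.RB

open Pool.Agent.H21.UE

theorem nz : T_NZ := NZ (ROTH Pool.Agent.H4.UE.HAS Pool.Agent.H4.UE.WRO BAS) SPEC

theorem qr : T_QR :=
  QR CELL GAP (MAIN (AUX CNT) nz (LOW COEF) (UPP COEF))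

theorem com : T_COM := COM HT MER

theorem cnta : T_CNTA := CNTA qr DEL com (FEW HT MER)

theorem cntb : T_CNTB := CNTB qr (SMO Pool.Agent.H33.RB.GRD) (COME com)

theorem cntc : T_CNTC := CNTC qr DEL com

end Pool.Agent.H38.RB
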