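import Pool.Agent.H38.RB.Targets
import Pool.Agent.H74.RB.CNTA

/-! # CNTC: the count for `t` with many large prime factors -/

set_option autoImplicit false

namespace Pool.Agent.H38.RB

/-- CNTC: the third count. -/
def T_CNTC : Prop := ∀ κ : ℝ, κ < 1 → ∃ (K : ℕ) (C : ℝ), 0 < C ∧ ∀ X y : ℝ, 1 ≤ X → 1 ≤ y →
  {x | ∃ t : ℕ, Squarefree t ∧ (t : ℝ) ≤ X ∧
    K ≤ (t.primeFactors.filter fun p : ℕ => y ≤ (p : ℝ)).card ∧ x ∈ Sol κ t.primeFactors}.Finite ∧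
  ({x | ∃ t : ℕ, Squarefree t ∧ (t : ℝ) ≤ X ∧
    K ≤ (t.primeFactors.filter fun p : ℕ => y ≤ (p : ℝ)).card ∧
      x ∈ Sol κ t.primeFactors}.ncard : ℝ) ≤ C * (X / y) * (Real.log X + 2) ^ C

theorem CNTC (hQR : T_QR) (hDEL : T_DEL) (hCOM : T_COM) : T_CNTC := by
  intro κ₁ hκ₁
  set κ : ℝ := max κ₁ 0 with hκdef
  have hκ0 : 0 ≤ κ := le_max_right _ _
  have hκ : κ < 1 := max_lt hκ₁ one_pos
  obtain ⟨K, hK⟩ : ∃ K : ℕ, 6 ≤ (1 - κ) * K := by
    obtain ⟨K, hK⟩ := exists_nat_ge (6 / (1 - κ))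
    exact ⟨K, by rwa [div_le_iff₀' (by linarith)] at hK⟩
  set κ' : ℝ := (1 + κ) / 2 with hκ'def
  have hκ' : κ' < 1 := by
    rw [hκ'def]
    linarith
  obtain ⟨C1, hC1, hQ1⟩ := hQR κ' hκ'
  obtain ⟨Cc, hCc, hcom⟩ := hCOM C1 hC1
  refine ⟨K, C1 * Cc + Cc, by positivity, ?_⟩
  intro X y hX hy1
  have hX0 : 0 < X := by linarith
  have hy0 : 0 < y := by linarith
  have hprime : ∀ t : ℕ, ∀ p ∈ t.primeFactors, p.Prime :=
    fun t p hp => Nat.prime_of_mem_primeFactors hp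
  obtain ⟨hU1, hU1c⟩ := cnta_union (sq (X / y)) (fun t => Sol κ' t.primeFactors)
    (fun t => C1 ^ (t.primeFactors.card + 1)) fun t => hQ1 _ (hprime t)
  have hsub : {x | ∃ t : ℕ, Squarefree t ∧ (t : ℝ) ≤ X ∧
      K ≤ (t.primeFactors.filter fun p : ℕ => y ≤ (p : ℝ)).card ∧
      x ∈ Sol κ₁ t.primeFactors} ⊆ ⋃ t ∈ sq (X / y), Sol κ' t.primeFactors := by
    rintro x ⟨t, ht, htX, hcard, hx⟩
    have hx' : x ∈ Sol κ t.primeFactors := cnta_mono (le_max_left _ _) _ hx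
    obtain ⟨p, hp, hxp⟩ := hDEL κ K t.primeFactors _ x hκ0 hκ hK (hprime t)
      (Finset.filter_subset _ _) hcard hx'
    rw [Finset.mem_filter] at hp
    obtain ⟨m, hm, hmsq, hmp⟩ := cnta_div ht hp.1
    rw [← hmp] at hxp
    rw [Set.mem_iUnion₂]
    refine ⟨m, ?_, hxp⟩
    unfold sq
    rw [Finset.mem_filter, Finset.mem_Icc]
    refine ⟨⟨Nat.one_le_iff_ne_zero.2 hmsq.ne_zero, Nat.le_floor ?_⟩, hmsq⟩
    rw [le_div_iff₀ hy0]
    have h1 : (m : ℝ) * y ≤ (m : ℝ) * p := mul_le_mul_of_nonneg_left hp.2 (Nat.cast_nonneg _)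
    have h2 : (m : ℝ) * p = t := by
      rw [hm]
      push_cast
      ring
    linarith
  refine ⟨hU1.subset hsub, ?_⟩
  have h1 : (({x | ∃ t : ℕ, Squarefree t ∧ (t : ℝ) ≤ X ∧
      K ≤ (t.primeFactors.filter fun p : ℕ => y ≤ (p : ℝ)).card ∧
      x ∈ Sol κ₁ t.primeFactors}.ncard : ℕ) : ℝ) ≤
      ((⋃ t ∈ sq (X / y), Sol κ' t.primeFactors).ncard : ℝ) := by
    exact_mod_cast Set.ncard_le_ncard hsub hU1
  refine (h1.trans hU1c).trans ?_
  have hL1 : 1 ≤ Real.log X + 2 := by linarith [Real.log_nonneg hX]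
  have hr : 0 ≤ (C1 * Cc + Cc) * (X / y) * (Real.log X + 2) ^ (C1 * Cc + Cc) := by positivity
  by_cases hXy : 1 ≤ X / y
  · have h3 := hcom (X / y) hXy
    simp_rw [pow_succ']
    rw [← Finset.mul_sum]
    have h6 : Real.log (X / y) + 2 ≤ Real.log X + 2 := by
      have := Real.log_le_log (by positivity : 0 < X / y) (div_le_self hX0.le hy1)
      linarith
    have h7 : (Real.log (X / y) + 2) ^ Cc ≤ (Real.log X + 2) ^ (C1 * Cc + Cc) :=
      (Real.rpow_le_rpow (by linarith [Real.log_nonneg hXy]) h6 hCc.le).trans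
        (Real.rpow_le_rpow_of_exponent_le hL1 (by nlinarith))
    calc C1 * ∑ i ∈ sq (X / y), C1 ^ i.primeFactors.card
        ≤ C1 * (Cc * (X / y) * (Real.log (X / y) + 2) ^ Cc) :=
          mul_le_mul_of_nonneg_left h3 (by linarith)
      _ ≤ C1 * (Cc * (X / y) * (Real.log X + 2) ^ (C1 * Cc + Cc)) :=
          mul_le_mul_of_nonneg_left (mul_le_mul_of_nonneg_left h7 (by positivity)) (by linarith)
      _ = C1 * Cc * ((X / y) * (Real.log X + 2) ^ (C1 * Cc + Cc)) := by ring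
      _ ≤ (C1 * Cc + Cc) * ((X / y) * (Real.log X + 2) ^ (C1 * Cc + Cc)) :=
          mul_le_mul_of_nonneg_right (by linarith) (by positivity)
      _ = _ := by ring
  · have h3 : sq (X / y) = ∅ := by
      unfold sq
      rw [Nat.floor_eq_zero.2 (not_le.1 hXy)]
      rfl
    rw [h3, Finset.sum_empty]
    exact hr

end Pool.Agent.H38.RB
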