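import Mathlib

set_option autoImplicit false

/-!
The strong `n`-conjecture, `n = 4`: lower bound `9/7` for the exponent `M_4`.

With `T = 7 ^ (2 m + 1)` the four integers
`(5T+18)^5 T^4`, `-(5T+2)^5 (T+4)^4`, `3 (17T^2+68T+4)^3`, `(21T^2+84T+20)^3`
are pairwise coprime and have sum zero.
-/

namespace Pool.Agent.H38.RB.Four

open Finset

/-- The four terms. -/
def tup (T : ℤ) : Fin 4 → ℤ :=
  ![(5 * T + 18) ^ 5 * T ^ 4, -((5 * T + 2) ^ 5 * (T + 4) ^ 4),
    3 * (17 * T ^ 2 + 68 * T + 4) ^ 3, (21 * T ^ 2 + 84 * T + 20) ^ 3]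

lemma cop_of_comb {a b u v N : ℤ} (hN : IsCoprime a N) (h : a * u + b * v = N) :
    IsCoprime a b := by
  obtain ⟨s, t, hst⟩ := hN
  refine ⟨s + t * u, t * v, ?_⟩
  rw [← h] at hst
  linear_combination hst

lemma cop_two_pow {a : ℤ} (k : ℕ) (h : a % 2 = 1) : IsCoprime a (2 ^ k) := by
  have h2 : IsCoprime a 2 := ⟨1, -(a / 2), by omega⟩
  exact h2.pow_right

lemma cop_three {a : ℤ} (h : a % 3 ≠ 0) : IsCoprime a 3 := by
  rcases (by omega : a % 3 = 1 ∨ a % 3 = 2) with h1 | h1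
  · exact ⟨1, -(a / 3), by omega⟩
  · exact ⟨-1, a / 3 + 1, by omega⟩

lemma cop_five {a : ℤ} (h : a % 5 ≠ 0) : IsCoprime a 5 := by
  rcases (by omega : a % 5 = 1 ∨ a % 5 = 2 ∨ a % 5 = 3 ∨ a % 5 = 4) with h1 | h1 | h1 | h1
  · exact ⟨1, -(a / 5), by omega⟩
  · exact ⟨-2, 2 * (a / 5) + 1, by omega⟩
  · exact ⟨2, -(2 * (a / 5)) - 1, by omega⟩
  · exact ⟨-1, a / 5 + 1, by omega⟩

section

variable {T : ℤ} (h6 : T % 6 = 1) (h5 : T % 5 = 2 ∨ T % 5 = 3)
include h6 h5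

/-- All pairwise coprimality statements between the four terms. -/
lemma pairwise_cop :
    IsCoprime ((5 * T + 18) ^ 5 * T ^ 4) ((5 * T + 2) ^ 5 * (T + 4) ^ 4) ∧
    IsCoprime ((5 * T + 18) ^ 5 * T ^ 4) (3 * (17 * T ^ 2 + 68 * T + 4) ^ 3) ∧
    IsCoprime ((5 * T + 18) ^ 5 * T ^ 4) ((21 * T ^ 2 + 84 * T + 20) ^ 3) ∧
    IsCoprime ((5 * T + 2) ^ 5 * (T + 4) ^ 4) (3 * (17 * T ^ 2 + 68 * T + 4) ^ 3) ∧
    IsCoprime ((5 * T + 2) ^ 5 * (T + 4) ^ 4) ((21 * T ^ 2 + 84 * T + 20) ^ 3) ∧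
    IsCoprime (3 * (17 * T ^ 2 + 68 * T + 4) ^ 3) ((21 * T ^ 2 + 84 * T + 20) ^ 3) := by
  have oA1 : (5 * T + 18) % 2 = 1 := by omega
  have oA2 : T % 2 = 1 := by omega
  have oB1 : (5 * T + 2) % 2 = 1 := by omega
  have oB2 : (T + 4) % 2 = 1 := by omega
  have hT2 : T ^ 2 % 2 = 1 := by
    rw [pow_two, Int.mul_emod, oA2]; norm_num
  have oC : (17 * T ^ 2 + 68 * T + 4) % 2 = 1 := by omega
  have oD : (21 * T ^ 2 + 84 * T + 20) % 2 = 1 := by omega
  have A1B1 : IsCoprime (5 * T + 18) (5 * T + 2) :=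
    cop_of_comb (u := 1) (v := -1) (cop_two_pow 4 oA1) (by ring)
  have A1B2 : IsCoprime (5 * T + 18) (T + 4) :=
    cop_of_comb (u := -1) (v := 5) (cop_two_pow 1 oA1) (by ring)
  have A2B1 : IsCoprime T (5 * T + 2) :=
    cop_of_comb (u := -5) (v := 1) (cop_two_pow 1 oA2) (by ring)
  have A2B2 : IsCoprime T (T + 4) :=
    cop_of_comb (u := -1) (v := 1) (cop_two_pow 2 oA2) (by ring)
  have A1t : IsCoprime (5 * T + 18) 3 := cop_three (by omega)
  have A2t : IsCoprime T 3 := cop_three (by omega)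
  have B1t : IsCoprime (5 * T + 2) 3 := cop_three (by omega)
  have B2t : IsCoprime (T + 4) 3 := cop_three (by omega)
  have A1C : IsCoprime (5 * T + 18) (17 * T ^ 2 + 68 * T + 4) :=
    cop_of_comb (u := 85 * T + 34) (v := -25) (cop_two_pow 9 oA1) (by ring)
  have A2C : IsCoprime T (17 * T ^ 2 + 68 * T + 4) :=
    cop_of_comb (u := -(17 * T + 68)) (v := 1) (cop_two_pow 2 oA2) (by ring)
  have B1C : IsCoprime (5 * T + 2) (17 * T ^ 2 + 68 * T + 4) :=
    cop_of_comb (u := 85 * T + 306) (v := -25) (cop_two_pow 9 oB1) (by ring)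
  have B2C : IsCoprime (T + 4) (17 * T ^ 2 + 68 * T + 4) :=
    cop_of_comb (u := -(17 * T)) (v := 1) (cop_two_pow 2 oB2) (by ring)
  have A1D : IsCoprime (5 * T + 18) (21 * T ^ 2 + 84 * T + 20) :=
    cop_of_comb (u := 105 * T + 42) (v := -25) (cop_two_pow 8 oA1) (by ring)
  have B1D : IsCoprime (5 * T + 2) (21 * T ^ 2 + 84 * T + 20) :=
    cop_of_comb (u := 105 * T + 378) (v := -25) (cop_two_pow 8 oB1) (by ring)
  have A2D : IsCoprime T (21 * T ^ 2 + 84 * T + 20) :=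
    cop_of_comb (u := -(21 * T + 84)) (v := 1)
      (IsCoprime.mul_right (cop_two_pow 2 oA2) (cop_five (by omega))) (by ring)
  have B2D : IsCoprime (T + 4) (21 * T ^ 2 + 84 * T + 20) :=
    cop_of_comb (u := -(21 * T)) (v := 1)
      (IsCoprime.mul_right (cop_two_pow 2 oB2) (cop_five (by omega))) (by ring)
  have tD : IsCoprime (3 : ℤ) (21 * T ^ 2 + 84 * T + 20) := ⟨7 * T ^ 2 + 28 * T + 7, -1, by ring⟩
  have CD : IsCoprime (17 * T ^ 2 + 68 * T + 4) (21 * T ^ 2 + 84 * T + 20) :=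
    cop_of_comb (u := -21) (v := 17) (cop_two_pow 8 oC) (by ring)
  refine ⟨?_, ?_, ?_, ?_, ?_, ?_⟩
  · exact IsCoprime.mul_left (IsCoprime.mul_right A1B1.pow A1B2.pow)
      (IsCoprime.mul_right A2B1.pow A2B2.pow)
  · exact IsCoprime.mul_left (IsCoprime.mul_right A1t.pow_left A1C.pow)
      (IsCoprime.mul_right A2t.pow_left A2C.pow)
  · exact IsCoprime.mul_left A1D.pow A2D.pow
  · exact IsCoprime.mul_left (IsCoprime.mul_right B1t.pow_left B1C.pow)
      (IsCoprime.mul_right B2t.pow_left B2C.pow)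
  · exact IsCoprime.mul_left B1D.pow B2D.pow
  · exact IsCoprime.mul_left tD.pow_right CD.pow

end

lemma tup_cop {T : ℤ} (h6 : T % 6 = 1) (h5 : T % 5 = 2 ∨ T % 5 = 3) (i j : Fin 4)
    (hij : i ≠ j) : Int.gcd (tup T i) (tup T j) = 1 := by
  rw [← Int.isCoprime_iff_gcd_eq_one]
  obtain ⟨h01, h02, h03, h12, h13, h23⟩ := pairwise_cop h6 h5
  fin_cases i <;> fin_cases j <;> simp only [tup] <;> first
    | exact absurd rfl hij
    | exact h01.neg_right
    | exact h01.symm.neg_left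
    | exact h02
    | exact h02.symm
    | exact h03
    | exact h03.symm
    | exact h12.neg_left
    | exact h12.symm.neg_right
    | exact h13.neg_left
    | exact h13.symm.neg_right
    | exact h23
    | exact h23.symm

lemma tup_sum (T : ℤ) : ∑ i, tup T i = 0 := by
  simp only [tup, Fin.sum_univ_four]
  simp
  ring

/-- The product of the distinct primes dividing the four terms is at most `2000000 T^7`. -/
lemma rad_le (k : ℕ) :
    (∏ i, tup ((7 ^ (2 * k + 1) : ℕ) : ℤ) i).natAbs.primeFactors.prod id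
      ≤ 2000000 * (7 ^ (2 * k + 1)) ^ 7 := by
  set t : ℕ := 7 ^ (2 * k + 1) with ht
  have ht7 : 7 ≤ t := by
    rw [ht]
    calc 7 = 7 ^ 1 := by norm_num
      _ ≤ 7 ^ (2 * k + 1) := Nat.pow_le_pow_right (by norm_num) (by omega)
  have hprod : ∏ i, tup (t : ℤ) i = -(((5 * t + 18) ^ 5 * t ^ 4 * ((5 * t + 2) ^ 5 * (t + 4) ^ 4) *
      (3 * (17 * t ^ 2 + 68 * t + 4) ^ 3) * (21 * t ^ 2 + 84 * t + 20) ^ 3 : ℕ) : ℤ) := by
    simp only [tup, Fin.prod_univ_four]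
    push_cast
    simp
  rw [hprod, Int.natAbs_neg, Int.natAbs_natCast]
  set m : ℕ := 7 * 3 * (5 * t + 18) * (5 * t + 2) * (t + 4) * (17 * t ^ 2 + 68 * t + 4) *
    (21 * t ^ 2 + 84 * t + 20) with hm
  have hm0 : m ≠ 0 := by positivity
  have hsub : ((5 * t + 18) ^ 5 * t ^ 4 * ((5 * t + 2) ^ 5 * (t + 4) ^ 4) *
      (3 * (17 * t ^ 2 + 68 * t + 4) ^ 3) * (21 * t ^ 2 + 84 * t + 20) ^ 3).primeFactors ⊆
      m.primeFactors := by
    intro p hp
    have hpp : p.Prime := Nat.prime_of_mem_primeFactors hp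
    have hpd := Nat.dvd_of_mem_primeFactors hp
    refine Nat.mem_primeFactors.2 ⟨hpp, ?_, hm0⟩
    rw [hm]
    rcases hpp.dvd_mul.1 hpd with h | h
    · rcases hpp.dvd_mul.1 h with h | h
      · rcases hpp.dvd_mul.1 h with h | h
        · rcases hpp.dvd_mul.1 h with h | h
          · have := hpp.dvd_of_dvd_pow h
            exact ((((this.mul_left _).mul_right _).mul_right _).mul_right _).mul_right _
          · have := hpp.dvd_of_dvd_pow (hpp.dvd_of_dvd_pow h)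
            exact ((((((this.mul_right _).mul_right _).mul_right _).mul_right _).mul_right _)).mul_right _
        · rcases hpp.dvd_mul.1 h with h | h
          · have := hpp.dvd_of_dvd_pow h
            exact (((this.mul_left _).mul_right _).mul_right _).mul_right _
          · have := hpp.dvd_of_dvd_pow h
            exact ((this.mul_left _).mul_right _).mul_right _
      · rcases hpp.dvd_mul.1 h with h | h
        · exact ((((((h.mul_left _).mul_right _).mul_right _).mul_right _).mul_right _)).mul_right _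
        · have := hpp.dvd_of_dvd_pow h
          exact (this.mul_left _).mul_right _
    · have := hpp.dvd_of_dvd_pow h
      exact this.mul_left _
  have h1 : ((5 * t + 18) ^ 5 * t ^ 4 * ((5 * t + 2) ^ 5 * (t + 4) ^ 4) *
      (3 * (17 * t ^ 2 + 68 * t + 4) ^ 3) * (21 * t ^ 2 + 84 * t + 20) ^ 3).primeFactors.prod id ∣
      m := by
    refine (Finset.prod_dvd_prod_of_subset _ _ _ hsub).trans ?_
    simpa using Nat.prod_primeFactors_dvd m
  refine (Nat.le_of_dvd (Nat.pos_of_ne_zero hm0) h1).trans ?_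
  have b1 : 5 * t + 18 ≤ 8 * t := by omega
  have b2 : 5 * t + 2 ≤ 6 * t := by omega
  have b3 : t + 4 ≤ 2 * t := by omega
  have b4 : 17 * t ^ 2 + 68 * t + 4 ≤ 28 * t ^ 2 := by nlinarith
  have b5 : 21 * t ^ 2 + 84 * t + 20 ≤ 34 * t ^ 2 := by nlinarith
  calc m ≤ 7 * 3 * (8 * t) * (6 * t) * (2 * t) * (28 * t ^ 2) * (34 * t ^ 2) := by
        rw [hm]; gcongr
    _ = 1919232 * t ^ 7 := by ring
    _ ≤ 2000000 * t ^ 7 := by gcongr; norm_num

lemma subsum_ne {x : Fin 4 → ℤ} (h0 : ∀ i, x i ≠ 0)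
    (hc : ∀ i j, i ≠ j → Int.gcd (x i) (x j) = 1) (hbig : ∀ i, 1 < |x i|)
    (hs : ∑ i, x i = 0) (s : Finset (Fin 4)) (hne : s.Nonempty) (hu : s ≠ univ) :
    ∑ i ∈ s, x i ≠ 0 := by
  have hcard : s.card ≤ 3 := by
    by_contra h
    have : s.card = 4 := le_antisymm (by simpa using Finset.card_le_univ s) (by omega)
    exact hu ((Finset.card_eq_iff_eq_univ s).1 (by simpa using this))
  have hpos : 0 < s.card := hne.card_pos
  rcases (by omega : s.card = 1 ∨ s.card = 2 ∨ s.card = 3) with h | h | h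
  · obtain ⟨i, rfl⟩ := Finset.card_eq_one.1 h
    simpa using h0 i
  · obtain ⟨i, j, hij, rfl⟩ := Finset.card_eq_two.1 h
    rw [Finset.sum_pair hij]
    intro h1
    have h2 : x i = -x j := by linarith
    have h3 := hc i j hij
    rw [h2, Int.neg_gcd, Int.gcd_self] at h3
    have h4 := hbig j
    rw [Int.abs_eq_natAbs, h3] at h4
    norm_num at h4
  · have hcc : sᶜ.card = 1 := by rw [Finset.card_compl, h]; simp
    obtain ⟨i, hi⟩ := Finset.card_eq_one.1 hcc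
    have h1 : ∑ j ∈ s, x j + ∑ j ∈ sᶜ, x j = 0 := by rw [Finset.sum_add_sum_compl, hs]
    rw [hi, Finset.sum_singleton] at h1
    intro h2
    rw [h2, zero_add] at h1
    exact h0 i h1

/-- **The exponent `M_4` in the strong `4`-conjecture is at least `9/7`.**  For every real
`M < 9/7` and every real `C` there are four non-zero pairwise coprime integers with sum `0`, no
proper non-empty sub-sum of which vanishes, one of which exceeds `C` times the `M`-th power of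
the radical of their product. -/
theorem four (M : ℝ) (hM : M < 9 / 7) (C : ℝ) :
    ∃ x : Fin 4 → ℤ, (∀ i, x i ≠ 0) ∧ (∀ i j, i ≠ j → Int.gcd (x i) (x j) = 1) ∧
      ∑ i, x i = 0 ∧
      (∀ s : Finset (Fin 4), s.Nonempty → s ≠ univ → ∑ i ∈ s, x i ≠ 0) ∧
      ∃ j, C * (((∏ i, x i).natAbs.primeFactors.prod id : ℕ) : ℝ) ^ M < |((x j : ℤ) : ℝ)| := by
  set M' : ℝ := max M 0 with hM'
  have hM'0 : 0 ≤ M' := le_max_right _ _
  have hM'1 : M' < 9 / 7 := max_lt hM (by norm_num)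
  have hδ : 0 < 9 - 7 * M' := by linarith
  -- choose `T`
  have htend : Filter.Tendsto (fun k : ℕ => ((7 : ℝ) ^ (2 * k + 1)) ^ (9 - 7 * M')) Filter.atTop
      Filter.atTop := by
    refine (tendsto_rpow_atTop hδ).comp ?_
    refine (tendsto_pow_atTop_atTop_of_one_lt (by norm_num : (1 : ℝ) < 7)).comp ?_
    exact Filter.tendsto_atTop_mono (fun k => (by omega : k ≤ 2 * k + 1)) Filter.tendsto_id
  obtain ⟨k, hk⟩ := (htend.eventually_gt_atTop (|C| * (2000000 : ℝ) ^ M')).exists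
  set t : ℕ := 7 ^ (2 * k + 1) with ht
  have htR : ((t : ℕ) : ℝ) = (7 : ℝ) ^ (2 * k + 1) := by rw [ht]; push_cast; ring
  have ht1 : 1 ≤ t := Nat.one_le_pow _ _ (by norm_num)
  have htpos : (0 : ℝ) < t := by exact_mod_cast ht1
  have ht6 : ((t : ℕ) : ℤ) % 6 = 1 := by
    have : t % 6 = 1 := by
      rw [ht, Nat.pow_mod]; norm_num
    omega
  have ht5 : ((t : ℕ) : ℤ) % 5 = 2 ∨ ((t : ℕ) : ℤ) % 5 = 3 := by
    have h49 : t = 7 * 49 ^ k := by rw [ht, pow_succ, pow_mul]; norm_num [mul_comm]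
    have h4 : ∀ n : ℕ, 49 ^ n % 5 = 1 ∨ 49 ^ n % 5 = 4 := by
      intro n
      induction n with
      | zero => left; norm_num
      | succ n ih => rw [pow_succ]; omega
    have := h4 k
    omega
  have hbig : ∀ i, 1 < |tup (t : ℤ) i| := by
    have hT : (1 : ℤ) ≤ (t : ℤ) := by exact_mod_cast ht1
    have e0 : 1 < (5 * (t : ℤ) + 18) ^ 5 * (t : ℤ) ^ 4 := by
      have h1 : (1 : ℤ) < (5 * (t : ℤ) + 18) ^ 5 := one_lt_pow₀ (by linarith) (by norm_num)
      have h2 : (1 : ℤ) ≤ (t : ℤ) ^ 4 := one_le_pow₀ hT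
      nlinarith
    have e1 : 1 < (5 * (t : ℤ) + 2) ^ 5 * ((t : ℤ) + 4) ^ 4 := by
      have h1 : (1 : ℤ) < (5 * (t : ℤ) + 2) ^ 5 := one_lt_pow₀ (by linarith) (by norm_num)
      have h2 : (1 : ℤ) ≤ ((t : ℤ) + 4) ^ 4 := one_le_pow₀ (by linarith)
      nlinarith
    have e2 : 1 < 3 * (17 * (t : ℤ) ^ 2 + 68 * (t : ℤ) + 4) ^ 3 := by
      have h1 : (1 : ℤ) < (17 * (t : ℤ) ^ 2 + 68 * (t : ℤ) + 4) ^ 3 :=
        one_lt_pow₀ (by nlinarith) (by norm_num)
      linarith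
    have e3 : 1 < (21 * (t : ℤ) ^ 2 + 84 * (t : ℤ) + 20) ^ 3 :=
      one_lt_pow₀ (by nlinarith) (by norm_num)
    intro i
    fin_cases i
    · exact e0.trans_le (le_abs_self _)
    · have : |tup (t : ℤ) 1| = |(5 * (t : ℤ) + 2) ^ 5 * ((t : ℤ) + 4) ^ 4| := by
        simp only [tup]; exact abs_neg _
      exact lt_of_lt_of_eq (e1.trans_le (le_abs_self _)) this.symm
    · exact e2.trans_le (le_abs_self _)
    · exact e3.trans_le (le_abs_self _)
  have hne : ∀ i, tup (t : ℤ) i ≠ 0 := by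
    intro i h
    have := hbig i
    rw [h] at this
    norm_num at this
  refine ⟨tup (t : ℤ), hne, tup_cop ht6 ht5, tup_sum _,
    subsum_ne hne (tup_cop ht6 ht5) hbig (tup_sum _), 0, ?_⟩
  set R : ℕ := (∏ i, tup (t : ℤ) i).natAbs.primeFactors.prod id with hR
  have hR1 : 1 ≤ R := by
    rw [hR, Nat.one_le_iff_ne_zero, Finset.prod_ne_zero_iff]
    intro p hp
    exact (Nat.prime_of_mem_primeFactors hp).ne_zero
  have hRle : (R : ℝ) ≤ 2000000 * (t : ℝ) ^ 7 := by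
    have := rad_le k
    rw [← ht] at this
    exact_mod_cast this
  have hR1' : (1 : ℝ) ≤ R := by exact_mod_cast hR1
  have step1 : (R : ℝ) ^ M ≤ (2000000 : ℝ) ^ M' * (t : ℝ) ^ (7 * M') := by
    calc (R : ℝ) ^ M ≤ (R : ℝ) ^ M' := Real.rpow_le_rpow_of_exponent_le hR1' (le_max_left _ _)
      _ ≤ (2000000 * (t : ℝ) ^ 7) ^ M' := Real.rpow_le_rpow (by positivity) hRle hM'0
      _ = (2000000 : ℝ) ^ M' * (t : ℝ) ^ (7 * M') := by
          rw [Real.mul_rpow (by norm_num) (by positivity), ← Real.rpow_natCast (t : ℝ) 7,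
            ← Real.rpow_mul htpos.le]
          norm_num
  have step2 : (t : ℝ) ^ 9 ≤ |((tup (t : ℤ) 0 : ℤ) : ℝ)| := by
    have h0 : ((tup (t : ℤ) 0 : ℤ) : ℝ) = (5 * (t : ℝ) + 18) ^ 5 * (t : ℝ) ^ 4 := by
      simp only [tup]
      simp
    rw [h0, abs_of_nonneg (by positivity)]
    calc (t : ℝ) ^ 9 = (t : ℝ) ^ 5 * (t : ℝ) ^ 4 := by ring
      _ ≤ (5 * (t : ℝ) + 18) ^ 5 * (t : ℝ) ^ 4 := by
          gcongr
          linarith
  refine lt_of_lt_of_le ?_ step2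
  have step3 : C * (R : ℝ) ^ M ≤ |C| * ((2000000 : ℝ) ^ M' * (t : ℝ) ^ (7 * M')) := by
    calc C * (R : ℝ) ^ M ≤ |C| * (R : ℝ) ^ M := by
          gcongr
          exact le_abs_self C
      _ ≤ _ := by gcongr
  refine lt_of_le_of_lt step3 ?_
  rw [← htR] at hk
  have hpos : 0 < (t : ℝ) ^ (7 * M') := Real.rpow_pos_of_pos htpos _
  calc |C| * ((2000000 : ℝ) ^ M' * (t : ℝ) ^ (7 * M'))
      = (|C| * (2000000 : ℝ) ^ M') * (t : ℝ) ^ (7 * M') := by ring
    _ < (t : ℝ) ^ (9 - 7 * M') * (t : ℝ) ^ (7 * M') := by gcongr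
    _ = (t : ℝ) ^ (9 : ℝ) := by rw [← Real.rpow_add htpos]; congr 1; ring
    _ = (t : ℝ) ^ 9 := by rw [← Real.rpow_natCast]; norm_num

end Pool.Agent.H38.RB.Four
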