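import Mathlib
import Pool.Agent.H38.AE.Statement

/-!
# Many violating tuples (MP_7ecdd4_nt, n ≥ 4). Definitions and targets.
-/

set_option autoImplicit false

namespace Pool.Agent.H38.RB.LB

open Pool.Agent.H38.AE.Statement

/-- a one-parameter family of admissible `n`-tuples of height about `t ^ D` and radical
`O(t ^ d)` -/
def Fam (n D d : ℕ) : Prop := ∃ (A : ℝ) (f : ℕ → Fin n → ℤ), 1 ≤ A ∧ Function.Injective f ∧
  (∀ t, Admissible (f t)) ∧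
  (∀ (t : ℕ) (i : Fin n), |((f t i : ℤ) : ℝ)| ≤ A * ((t : ℝ) + 1) ^ D) ∧
  (∀ t : ℕ, ∃ i, ((t : ℝ) + 1) ^ D ≤ |((f t i : ℤ) : ℝ)|) ∧
  ∀ t : ℕ, (radical (∏ i, f t i) : ℝ) ≤ A * ((t : ℝ) + 1) ^ d

/-- L1: a family gives many violating tuples. -/
def T_L1 : Prop := ∀ (n D d : ℕ), 1 ≤ D → 1 ≤ d → Fam n D d → ∀ M : ℝ, M < (D : ℝ) / d →
  ∃ c : ℝ, 0 < c ∧ ∃ N₀ : ℕ, ∀ N : ℕ, N₀ ≤ N →
    c * (N : ℝ) ^ (1 / (D : ℝ)) ≤ ((Exceptional n M N).ncard : ℝ)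

/-- L2: adding `1, -1`. -/
def T_L2 : Prop := ∀ (n D d : ℕ), Fam n D d → Fam (n + 2) D d

/-- L3: four terms (identity of `FourTerms`). -/
def T_L3 : Prop := Fam 4 9 8

/-- L4: five terms, `(y+1)^5 - (y-1)^5 - 10 (y²+1)² + 1 + 7 = 0`. -/
def T_L4 : Prop := Fam 5 5 4

/-- L5: six terms (identity of `EvenSevenFifths`). -/
def T_L5 : Prop := Fam 6 7 6

end Pool.Agent.H38.RB.LB
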