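import Pool.Agent.H25.SN.Seven

set_option autoImplicit false

namespace Pool.Agent.H38.RB.SevenF

open Pool.Agent.H25.SN Pool.Agent.H25.SN.Seven

lemma rad_bound (m : ℕ) (hm1 : 1 ≤ m) (s : ℤ) (hsm : s = 29 ^ m) (hmod : s ≡ 29 [ZMOD R]) :
    ((rad (∏ i, x s i) : ℕ) : ℝ) ≤
    (29 * 49 * 12000 * 6000 * 7 * 804501061631 : ℝ) * ((s : ℤ) : ℝ) ^ 5 := by
  have hs : 1 ≤ s := by
    rw [hsm]
    exact one_le_pow₀ (by norm_num)
  set K : ℤ := 29 * (s - 48) * (u3 s) * (u4 s) * 7 * B with hKdef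
  have h29 : s ^ 7 ∣ 29 ^ (7 * m) := by
    rw [hsm, ← pow_mul, mul_comm m 7]
  have hK : (∏ i, x s i) ∣ K ^ (7 * m) := by
    have h1 : (∏ i, x s i) = s ^ 7 * (-(s - 48) ^ 7) * (-(u3 s) ^ 3) * (7 * (u4 s) ^ 3) * B := by
      simp only [x, Fin.prod_univ_succ, Fin.prod_univ_zero]
      simp
      ring
    rw [h1, hKdef]
    rw [show (29 * (s - 48) * (u3 s) * (u4 s) * 7 * B) ^ (7 * m)
      = (29 ^ (7 * m)) * ((s - 48) ^ (7 * m)) * (u3 s) ^ (7 * m) *
        (7 ^ (7 * m) * (u4 s) ^ (7 * m)) * B ^ (7 * m) by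
        rw [mul_pow, mul_pow, mul_pow, mul_pow, mul_pow]; ring]
    apply mul_dvd_mul
    · apply mul_dvd_mul
      · apply mul_dvd_mul
        · apply mul_dvd_mul
          · exact h29
          · rw [neg_dvd]
            exact pow_dvd_pow _ (by omega)
        · rw [neg_dvd]
          exact pow_dvd_pow _ (by omega)
      · apply mul_dvd_mul
        · exact dvd_pow_self _ (by omega)
        · exact pow_dvd_pow _ (by omega)
    · exact dvd_pow_self _ (by omega)
  have hne : K ≠ 0 := by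
    have hadm := (admissible hmod).1
    have h2 := hadm 1
    have h3 := hadm 2
    have h4 := hadm 3
    have e2 : x s 1 = -(s - 48) ^ 7 := rfl
    have e3 : x s 2 = -(u3 s) ^ 3 := rfl
    have e4 : x s 3 = 7 * (u4 s) ^ 3 := rfl
    rw [e2] at h2
    rw [e3] at h3
    rw [e4] at h4
    have g2 : s - 48 ≠ 0 := by
      intro h
      rw [h] at h2
      norm_num at h2
    have g3 : u3 s ≠ 0 := by
      intro h
      rw [h] at h3
      norm_num at h3
    have g4 : u4 s ≠ 0 := by
      intro h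
      rw [h] at h4
      norm_num at h4
    have gB : B ≠ 0 := by unfold B; norm_num
    rw [hKdef]
    exact mul_ne_zero (mul_ne_zero (mul_ne_zero (mul_ne_zero (mul_ne_zero (by norm_num) g2) g3) g4)
      (by norm_num)) gB
  have h5 : rad (∏ i, x s i) ≤ K.natAbs := by
    apply rad_le (Int.natAbs_pos.mpr hne) (7 * m)
    rw [← Int.natAbs_pow]
    exact Int.natAbs_dvd_natAbs.mpr hK
  have h6 : ((rad (∏ i, x s i) : ℕ) : ℝ) ≤ ((K.natAbs : ℕ) : ℝ) := by exact_mod_cast h5
  refine h6.trans ?_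
  rw [Nat.cast_natAbs]
  have hb2 : |s - 48| ≤ 49 * s := by
    rw [abs_le]
    constructor <;> linarith
  have hb3 : |u3 s| ≤ 12000 * s ^ 2 := by
    unfold u3
    rw [abs_le]
    constructor <;> nlinarith
  have hb4 : |u4 s| ≤ 6000 * s ^ 2 := by
    unfold u4
    rw [abs_le]
    constructor <;> nlinarith
  have hBv : |B| = 804501061631 := by unfold B; norm_num
  have h7 : |K| ≤ 29 * (49 * s) * (12000 * s ^ 2) * (6000 * s ^ 2) * 7 * 804501061631 := by
    rw [hKdef, abs_mul, abs_mul, abs_mul, abs_mul, abs_mul, hBv]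
    have a1 : |(29 : ℤ)| = 29 := by norm_num
    have a2 : |(7 : ℤ)| = 7 := by norm_num
    rw [a1, a2]
    have hp : 0 ≤ s := by linarith
    gcongr
  have h8 : ((|K| : ℤ) : ℝ) ≤
      ((29 * (49 * s) * (12000 * s ^ 2) * (6000 * s ^ 2) * 7 * 804501061631 : ℤ) : ℝ) := by
    exact_mod_cast h7
  refine h8.trans (le_of_eq ?_)
  push_cast
  ring

/-- For every even `n ≥ 6`, every real `M < 7/5` and every real `H` there is an admissible
`n`-tuple (non-zero pairwise coprime integers with sum zero) having an entry whose absolute value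
exceeds both `H` and the `M`-th power of the radical of the product of the entries. -/
theorem seven (n : ℕ) (hn : 6 ≤ n) (he : Even n) (M : ℝ) (hM : M < 7 / 5) (H : ℝ) :
    ∃ x : Fin n → ℤ, (∀ i, x i ≠ 0) ∧ (∀ i j, i ≠ j → Int.gcd (x i) (x j) = 1) ∧
      ∑ i, x i = 0 ∧
      ∃ j, H < |((x j : ℤ) : ℝ)| ∧
        (((∏ i, x i).natAbs.primeFactors.prod id : ℕ) : ℝ) ^ M < |((x j : ℤ) : ℝ)| := by
  obtain ⟨e, he0, hmod⟩ := exists_exp
  have h6 : Good 6 M H := by
    refine exists_good 6 7 5 (29 * 49 * 12000 * 6000 * 7 * 804501061631) (by norm_num) M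
      (by norm_num; linarith) (fun k => (((29 : ℤ) ^ (1 + k * e) : ℤ) : ℝ)) ?_
      (fun k => x ((29 : ℤ) ^ (1 + k * e))) 0 (fun k => admissible (hmod k)) ?_
      (by norm_num) (fun k => rad_bound (1 + k * e) (by omega) _ rfl (hmod k)) H
    · have h1 : Filter.Tendsto (fun k : ℕ => 1 + k * e) Filter.atTop Filter.atTop := by
        apply Filter.tendsto_atTop_mono (f := fun k : ℕ => k)
        · intro k
          nlinarith
        · exact Filter.tendsto_id
      have h2 : Filter.Tendsto (fun m : ℕ => (29 : ℝ) ^ m) Filter.atTop Filter.atTop :=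
        tendsto_pow_atTop_atTop_of_one_lt (by norm_num)
      refine (h2.comp h1).congr ?_
      intro k
      push_cast
      rfl
    · intro k
      have e : x ((29 : ℤ) ^ (1 + k * e)) 0 = ((29 : ℤ) ^ (1 + k * e)) ^ 7 := rfl
      rw [e]
      push_cast
      exact le_abs_self _
  have hgood : Good n M H := by
    apply good_of_even h6 hn
    obtain ⟨r, hr⟩ := he
    exact ⟨r - 3, by omega⟩
  obtain ⟨x, ⟨h0, h1, h2⟩, j, h3, h4⟩ := hgood
  exact ⟨x, h0, h1, h2, j, h3, h4⟩

end Pool.Agent.H38.RB.SevenF
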